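import Mathlib

set_option autoImplicit false

namespace Pool.Agent.Results.MP_37af32_pr.Slow

open MeasureTheory ProbabilityTheory Filter Topology
open scoped ENNReal

/-- Configurations `A^(ℤ^d)`, with the product topology and the product sigma-algebra. -/
abbrev Cfg (d : ℕ) (A : Type) : Type := (Fin d → ℤ) → A

/-- The cylinder of configurations equal to `w` on the finite set `D`. -/
def cyl {d : ℕ} {A : Type} (D : Finset (Fin d → ℤ)) (w : Cfg d A) : Set (Cfg d A) :=
  {x | ∀ i ∈ D, x i = w i}

section Defs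

variable {d : ℕ} {A : Type} [MeasurableSpace A] [TopologicalSpace A]
  (N : Finset (Fin d → ℤ)) (f : (N → A) → ProbabilityMeasure A)

/-- The transition kernel of the PCA with neighbourhood `N` and local rule `f`: new symbols are
independent, the one at site `i` having law `f ((x_(i+n))_(n ∈ N))`. -/
noncomputable def kernel (x : Cfg d A) : Measure (Cfg d A) :=
  Measure.infinitePi fun i => (f (fun n : N => x (i + n)) : Measure A)

/-- `μ Φ^t`. -/
noncomputable def evolve (t : ℕ) (μ : Measure (Cfg d A)) : Measure (Cfg d A) :=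
  (fun ν : Measure (Cfg d A) => ν.bind (kernel N f))^[t] μ

/-- Ergodic with invariant measure `π`: `π` is the unique invariant probability measure and
`μ Φ^t → π` weakly for every initial probability measure `μ`. -/
def IsErgodic (π : Measure (Cfg d A)) : Prop :=
  IsProbabilityMeasure π ∧ π.bind (kernel N f) = π ∧
    (∀ ν : Measure (Cfg d A), IsProbabilityMeasure ν → ν.bind (kernel N f) = ν → ν = π) ∧
    ∀ μ : Measure (Cfg d A), IsProbabilityMeasure μ → ∀ g : BoundedContinuousFunction (Cfg d A) ℝ,
      Tendsto (fun t => ∫ x, g x ∂(evolve N f t μ)) atTop (𝓝 (∫ x, g x ∂π))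

/-- Uniformly ergodic: for every cylinder `C`, `sup_μ |μ Φ^t (C) - π (C)| → 0`. -/
def IsUnifErgodic (π : Measure (Cfg d A)) : Prop :=
  ∀ (D : Finset (Fin d → ℤ)) (w : Cfg d A) (ε : ℝ), 0 < ε → ∃ t₀ : ℕ, ∀ t, t₀ ≤ t →
    ∀ μ : Measure (Cfg d A), IsProbabilityMeasure μ →
      |(evolve N f t μ).real (cyl D w) - π.real (cyl D w)| ≤ ε

/-- Exponential convergence on cylinders, constants not depending on the initial measure. -/
def ExpConv (π : Measure (Cfg d A)) : Prop :=
  ∀ (D : Finset (Fin d → ℤ)) (w : Cfg d A), ∃ K γ : ℝ, 0 ≤ γ ∧ γ < 1 ∧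
    ∀ μ : Measure (Cfg d A), IsProbabilityMeasure μ → ∀ t : ℕ,
      |(evolve N f t μ).real (cyl D w) - π.real (cyl D w)| ≤ K * γ ^ t

/-- The weaker variant: the constants may depend on the initial measure. -/
def WeakExpConv (π : Measure (Cfg d A)) : Prop :=
  ∀ (D : Finset (Fin d → ℤ)) (w : Cfg d A) (μ : Measure (Cfg d A)), IsProbabilityMeasure μ →
    ∃ K γ : ℝ, 0 ≤ γ ∧ γ < 1 ∧ ∀ t : ℕ,
      |(evolve N f t μ).real (cyl D w) - π.real (cyl D w)| ≤ K * γ ^ t

end Defs

abbrev V : Type := Fin 1 → ℤ
abbrev St : Type := Bool × Bool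

def e (z : ℤ) : V := fun _ => z

lemma e_add (z i : ℤ) : e z + e i = e (z + i) := rfl
lemma e_surj (w : V) : w = e (w 0) := by funext i; rw [Subsingleton.elim i 0]; rfl
lemma e_inj {z w : ℤ} (h : e z = e w) : z = w := congrFun h 0

def NN : Finset V := {e 1, e 2}

def g (r s : St) (c : Bool) : St :=
  ((r.1 && !r.2) || (s.1 && s.2), ((r.1 && !r.2) || (s.1 && s.2)) && c)

noncomputable def coin : Measure Bool := (PMF.uniformOfFintype Bool).toMeasure
instance : IsProbabilityMeasure coin := by unfold coin; infer_instance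

lemma coin_single (b : Bool) : coin {b} = 2⁻¹ := by
  rw [coin, PMF.toMeasure_apply_singleton _ _ (measurableSet_singleton b), PMF.uniformOfFintype_apply]
  simp

noncomputable def coins : Measure (V → Bool) := Measure.infinitePi fun _ => coin
instance : IsProbabilityMeasure coins := by unfold coins; infer_instance

noncomputable def f (p : NN → St) : ProbabilityMeasure St :=
  ⟨coin.map (g (p ⟨e 1, by simp [NN]⟩) (p ⟨e 2, by simp [NN]⟩)),
    Measure.isProbabilityMeasure_map Measurable.of_discrete.aemeasurable⟩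

def step (x : V → St) (c : V → Bool) : V → St := fun w => g (x (w + e 1)) (x (w + e 2)) (c w)

lemma meas_step : Measurable fun z : (V → St) × (V → Bool) => step z.1 z.2 := by
  refine measurable_pi_lambda _ fun w => ?_
  have h1 : Measurable fun q : St × St × Bool => g q.1 q.2.1 q.2.2 := Measurable.of_discrete
  have h2 : Measurable fun z : (V → St) × (V → Bool) => (z.1 (w + e 1), z.1 (w + e 2), z.2 w) := by
    fun_prop
  exact h1.comp h2

lemma meas_step' (x : V → St) : Measurable (step x) := meas_step.comp measurable_prodMk_left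

lemma κ_apply (x : V → St) : kernel NN f x = coins.map (step x) :=
  (Measure.infinitePi_map_pi (fun _ : V => coin)
    (f := fun k => g (x (k + e 1)) (x (k + e 2))) fun _ => Measurable.of_discrete).symm

lemma meas_κ : Measurable (kernel NN f) := by
  have : kernel NN f = ⇑((Kernel.id ×ₖ Kernel.const _ coins).map fun z : (V → St) × (V → Bool) =>
      step z.1 z.2) := by
    funext x
    rw [κ_apply, Kernel.map_apply _ meas_step, Kernel.prod_apply, Kernel.id_apply, Kernel.const_apply,
      Measure.dirac_prod, Measure.map_map meas_step measurable_prodMk_left]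
    rfl
  rw [this]; exact Kernel.measurable _

noncomputable abbrev it (n : ℕ) (ν : Measure (V → St)) : Measure (V → St) := evolve NN f n ν

lemma it_succ' (n : ℕ) (ν : Measure (V → St)) : it (n + 1) ν = (it n ν).bind (kernel NN f) :=
  Function.iterate_succ_apply' _ _ _

lemma it_succ (n : ℕ) (ν : Measure (V → St)) {S : Set (V → St)} (hS : MeasurableSet S) :
    it (n + 1) ν S = ∫⁻ x, coins (step x ⁻¹' S) ∂(it n ν) := by
  rw [it_succ', Measure.bind_apply hS meas_κ.aemeasurable]
  refine lintegral_congr fun x => ?_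
  rw [κ_apply, Measure.map_apply (meas_step' x) hS]

lemma it_univ (n : ℕ) (ν : Measure (V → St)) : it n ν Set.univ = ν Set.univ := by
  induction n with
  | zero => rfl
  | succ n ih => rw [it_succ _ _ MeasurableSet.univ]; simp [ih]

instance (n : ℕ) (ν : Measure (V → St)) [IsProbabilityMeasure ν] : IsProbabilityMeasure (it n ν) :=
  ⟨by rw [it_univ, measure_univ]⟩

lemma it_ae {n : ℕ} {ν : Measure (V → St)} {P Q : (V → St) → Prop} (hQ : MeasurableSet {x | Q x})
    (h : ∀ x c, P x → Q (step x c)) (hP : ∀ᵐ x ∂(it n ν), P x) : ∀ᵐ x ∂(it (n + 1) ν), Q x := by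
  rw [ae_iff]
  have : {x | ¬ Q x} = {x | Q x}ᶜ := rfl
  rw [this, it_succ _ _ hQ.compl]
  refine (lintegral_congr_ae ?_).trans lintegral_zero
  filter_upwards [hP] with x hx
  have : step x ⁻¹' {x | Q x}ᶜ = ∅ := by
    ext c; simp [h x c hx]
  rw [this, measure_empty]

def Kl (x : V → St) (z : ℤ) : Prop := (x (e z)).1 = true
def Dr (x : V → St) (z : ℤ) : Prop := (x (e z)).2 = true
def pres (x : V → St) (z : ℤ) : Prop := (Kl x (z + 1) ∧ ¬ Dr x (z + 1)) ∨ (Kl x (z + 2) ∧ Dr x (z + 2))

lemma Kl_step (x : V → St) (c : V → Bool) (z : ℤ) : Kl (step x c) z ↔ pres x z := by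
  simp [Kl, Dr, pres, step, g, e_add]

lemma Dr_step (x : V → St) (c : V → Bool) (z : ℤ) : Dr (step x c) z ↔ pres x z ∧ c (e z) = true := by
  simp [Kl, Dr, pres, step, g, e_add]

lemma mK (z : ℤ) : Measurable fun x => Kl x z :=
  (Measurable.of_discrete (f := fun s : St => s.1 = true)).comp (measurable_pi_apply (e z))
lemma mD (z : ℤ) : Measurable fun x => Dr x z :=
  (Measurable.of_discrete (f := fun s : St => s.2 = true)).comp (measurable_pi_apply (e z))
lemma mP (z : ℤ) : Measurable fun x => pres x z := ((mK _).and (mD _).not).or ((mK _).and (mD _))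

lemma Kl_move (x : V → St) (c : V → Bool) {k : ℤ} (h : Kl x k) :
    Kl (step x c) (k - 1) ∨ Kl (step x c) (k - 2) := by
  rw [Kl_step, Kl_step]
  by_cases hd : Dr x k
  · right; right; rw [sub_add_cancel]; exact ⟨h, hd⟩
  · left; left; rw [sub_add_cancel]; exact ⟨h, hd⟩

noncomputable def h : ℕ → ℕ → ℝ
  | _, 0 => 1
  | 0, _ + 1 => 0
  | m + 1, l + 1 => (h m l + h m (l + 1) + (h m (l + 1) + h m (l + 2))) / 4

lemma h_zero (m : ℕ) : h m 0 = 1 := by cases m <;> simp [h]

lemma h_mem : ∀ m l, 0 ≤ h m l ∧ h m l ≤ 1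
  | m, 0 => by simp [h_zero]
  | 0, _ + 1 => by simp [h]
  | m + 1, l + 1 => by
    have a1 := h_mem m l
    have a2 := h_mem m (l + 1)
    have a3 := h_mem m (l + 2)
    simp only [h]
    constructor <;> linarith

lemma h_mono : ∀ m l, h m l ≤ h (m + 1) l
  | m, 0 => by simp [h_zero]
  | 0, l + 1 => by
    have := (h_mem 1 (l + 1)).1
    simpa [h] using this
  | m + 1, l + 1 => by
    have a1 := h_mono m l
    have a2 := h_mono m (l + 1)
    have a3 := h_mono m (l + 2)
    rw [h, h]
    linarith

lemma h_tendsto (l : ℕ) : Tendsto (fun m => h m l) atTop (𝓝 1) := by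
  have h1 : ∀ l, Tendsto (fun m => h m l) atTop (𝓝 (⨆ m, h m l)) := fun l =>
    tendsto_atTop_ciSup (monotone_nat_of_le_succ fun m => h_mono m l)
      ⟨1, by rintro _ ⟨m, rfl⟩; exact (h_mem m l).2⟩
  set H : ℕ → ℝ := fun l => ⨆ m, h m l with hH
  have h0 : H 0 = 1 := by simp [hH, h_zero]
  have hb : ∀ l, 0 ≤ H l ∧ H l ≤ 1 := fun l =>
    ⟨ge_of_tendsto' (h1 l) fun m => (h_mem m l).1, le_of_tendsto' (h1 l) fun m => (h_mem m l).2⟩
  have hr : ∀ l, H (l + 1) = (H l + H (l + 1) + (H (l + 1) + H (l + 2))) / 4 := by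
    intro l
    have a1 := (h1 (l + 1)).comp (tendsto_add_atTop_nat 1)
    have a2 := (((h1 l).add (h1 (l + 1))).add ((h1 (l + 1)).add (h1 (l + 2)))).div_const 4
    exact tendsto_nhds_unique a1 (a2.congr fun m => by simp [h])
  have hd : ∀ l, H (l + 1) - H l = H 1 - H 0 := by
    intro l
    induction l with
    | zero => rfl
    | succ l ih => have := hr l; linarith
  have hl : ∀ l : ℕ, H l = 1 + l * (H 1 - H 0) := by
    intro l
    induction l with
    | zero => simp [h0]
    | succ l ih => have := hd l; push_cast; linarith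
  have hδ : H 1 - H 0 = 0 := by
    by_contra hne
    have hneg : 0 < -(H 1 - H 0) := by
      have := (hb 1).2
      rcases lt_or_gt_of_ne hne with h | h <;> linarith
    obtain ⟨n, hn⟩ := exists_nat_gt (1 / -(H 1 - H 0))
    rw [div_lt_iff₀ hneg] at hn
    have := (hb n).1
    rw [hl n] at this
    linarith
  have := h1 l
  rwa [show (⨆ m, h m l) = 1 by have := hl l; rw [hδ] at this; simpa using this] at this

def D (a : ℤ) (l : ℕ) : Set (V → St) := {x | ∀ z, a ≤ z → z < a + l → ¬ pres x z}

lemma mDD (a : ℤ) (l : ℕ) : MeasurableSet (D a l) :=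
  measurableSet_setOf.2 (Measurable.forall fun z => measurable_const.imp (measurable_const.imp (mP z).not))

def E (a b : ℤ) (i j : Bool) : Set (V → Bool) := {c | c (e a) = i ∧ c (e b) = j}

lemma mE (a b : ℤ) (i j : Bool) : MeasurableSet (E a b i j) :=
  ((measurable_pi_apply (X := fun _ : V => Bool) (e a)) (measurableSet_singleton i)).inter
    ((measurable_pi_apply (X := fun _ : V => Bool) (e b)) (measurableSet_singleton j))

lemma coins_E {a b : ℤ} (hab : a ≠ b) (i j : Bool) : coins (E a b i j) = 4⁻¹ := by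
  have h1 := Measure.infinitePi_map_eval_prod (P := fun _ : V => coin) (i := e a) (j := e b)
    (fun h => hab (e_inj h))
  have h2 : E a b i j = (fun ω : V → Bool => (ω (e a), ω (e b))) ⁻¹' ({i} ×ˢ {j}) := by
    ext c; simp [E]
  rw [h2, ← Measure.map_apply (by fun_prop) ((measurableSet_singleton i).prod (measurableSet_singleton j)),
    coins, h1, Measure.prod_prod, coin_single, coin_single, ← ENNReal.mul_inv (by simp) (by simp)]
  norm_num

lemma one_step (a : ℤ) (l : ℕ) (x : V → St) :
    4⁻¹ * ((D (a + 2) l).indicator 1 x + (D (a + 2) (l + 1)).indicator 1 x +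
      ((D (a + 1) (l + 1)).indicator 1 x + (D (a + 1) (l + 2)).indicator 1 x)) ≤
      coins (step x ⁻¹' D a (l + 1)) := by
  have hne : a + 1 ≠ a + l + 2 := by omega
  set G := step x ⁻¹' D a (l + 1) with hG
  have key : ∀ (i j : Bool) (T : Set (V → St)), (x ∈ T → E (a + 1) (a + l + 2) i j ⊆ G) →
      4⁻¹ * T.indicator 1 x ≤ coins (G ∩ E (a + 1) (a + l + 2) i j) := by
    intro i j T hT
    by_cases hxT : x ∈ T
    · rw [Set.indicator_of_mem hxT, Set.inter_eq_right.2 (hT hxT), coins_E hne]; simp
    · rw [Set.indicator_of_notMem hxT]; simp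
  have sub : ∀ (i j : Bool), (∀ z, a + 2 ≤ z → z < a + l + 2 → ¬ pres x z) →
      (i = false → ¬ pres x (a + 1)) → (j = true → ¬ pres x (a + l + 2)) →
      E (a + 1) (a + l + 2) i j ⊆ G := by
    intro i j h1 h2 h3 c hc z hz1 hz2
    push_cast at hz2
    rintro (⟨b1, b2⟩ | ⟨b1, b2⟩)
    · rw [Kl_step] at b1
      rw [Dr_step] at b2
      by_cases hz : z = a
      · subst hz
        cases i
        · exact h2 rfl b1
        · exact b2 ⟨b1, hc.1⟩
      · exact h1 _ (by omega) (by omega) b1
    · rw [Dr_step] at b2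
      by_cases hz : z = a + l
      · subst hz
        cases j
        · have := hc.2
          rw [b2.2] at this
          exact absurd this (by simp)
        · exact h3 rfl b2.1
      · exact h1 _ (by omega) (by omega) b2.1
  have k1 := key true false (D (a + 2) l) fun hT =>
    sub _ _ (fun z h1 h2 => hT z h1 (by omega)) (by simp) (by simp)
  have k2 := key true true (D (a + 2) (l + 1)) fun hT =>
    sub _ _ (fun z h1 h2 => hT z h1 (by push_cast; omega)) (by simp)
      fun _ => hT _ (by omega) (by push_cast; omega)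
  have k3 := key false false (D (a + 1) (l + 1)) fun hT =>
    sub _ _ (fun z h1 h2 => hT z (by omega) (by push_cast; omega))
      (fun _ => hT _ le_rfl (by push_cast; omega)) (by simp)
  have k4 := key false true (D (a + 1) (l + 2)) fun hT =>
    sub _ _ (fun z h1 h2 => hT z (by omega) (by push_cast; omega))
      (fun _ => hT _ le_rfl (by push_cast; omega)) fun _ => hT _ (by omega) (by push_cast; omega)
  rw [mul_add, mul_add, mul_add]
  refine (add_le_add (add_le_add k1 k2) (add_le_add k3 k4)).trans ?_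
  have hGm : MeasurableSet G := meas_step' x (mDD _ _)
  have dj : ∀ i j i' j' : Bool, (i ≠ i' ∨ j ≠ j') →
      Disjoint (G ∩ E (a + 1) (a + l + 2) i j) (G ∩ E (a + 1) (a + l + 2) i' j') := by
    intro i j i' j' hij
    refine Set.disjoint_left.2 fun c h1 h2 => ?_
    rcases hij with hij | hij
    · exact hij (h1.2.1.symm.trans h2.2.1)
    · exact hij (h1.2.2.symm.trans h2.2.2)
  rw [← measure_union (dj _ _ _ _ (by simp)) (hGm.inter (mE _ _ _ _)),
    ← measure_union (dj _ _ _ _ (by simp)) (hGm.inter (mE _ _ _ _)),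
    ← measure_union ?_ ((hGm.inter (mE _ _ _ _)).union (hGm.inter (mE _ _ _ _)))]
  · refine measure_mono ?_
    rintro c ((h | h) | (h | h)) <;> exact h.1
  · simp only [Set.disjoint_union_left, Set.disjoint_union_right]
    exact ⟨⟨dj _ _ _ _ (by simp), dj _ _ _ _ (by simp)⟩, dj _ _ _ _ (by simp), dj _ _ _ _ (by simp)⟩

lemma claim (ν : Measure (V → St)) [IsProbabilityMeasure ν] :
    ∀ (m : ℕ) (a : ℤ) (l : ℕ), ENNReal.ofReal (h m l) ≤ it m ν (D a l) := by
  intro m
  induction m with
  | zero =>
    intro a l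
    cases l with
    | zero =>
      have : D a 0 = Set.univ := Set.eq_univ_of_forall fun x z h1 h2 => by push_cast at h2; omega
      simp [this, h_zero]
    | succ l => simp [h]
  | succ m ih =>
    intro a l
    cases l with
    | zero =>
      have : D a 0 = Set.univ := Set.eq_univ_of_forall fun x z h1 h2 => by push_cast at h2; omega
      simp [this, h_zero]
    | succ l =>
      have i1 := ih (a + 2) l
      have i2 := ih (a + 2) (l + 1)
      have i3 := ih (a + 1) (l + 1)
      have i4 := ih (a + 1) (l + 2)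
      rw [it_succ _ _ (mDD _ _)]
      refine le_trans ?_ (lintegral_mono (one_step a l))
      have mi : ∀ a l, Measurable ((D a l).indicator (1 : (V → St) → ℝ≥0∞)) := fun a l =>
        measurable_one.indicator (mDD a l)
      rw [lintegral_const_mul' _ _ (by simp),
        lintegral_add_left ((mi _ _).fun_add (mi _ _)), lintegral_add_left (mi _ _),
        lintegral_add_left (mi _ _), lintegral_indicator_one (mDD _ _), lintegral_indicator_one (mDD _ _),
        lintegral_indicator_one (mDD _ _), lintegral_indicator_one (mDD _ _)]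
      refine le_trans (le_of_eq ?_) (mul_le_mul_right (add_le_add (add_le_add i1 i2) (add_le_add i3 i4)) _)
      have p1 := (h_mem m l).1
      have p2 := (h_mem m (l + 1)).1
      have p3 := (h_mem m (l + 2)).1
      rw [h, ENNReal.ofReal_div_of_pos (by norm_num), ENNReal.ofReal_add (by positivity) (by positivity),
        ENNReal.ofReal_add p1 p2, ENNReal.ofReal_add p2 p3, ENNReal.ofReal_ofNat, div_eq_mul_inv]
      ring

def o : St := (false, false)

def W (M : ℕ) : Set (V → St) := {x | ∀ z : ℤ, |z| ≤ M → x (e z) = o}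

lemma mW (M : ℕ) : MeasurableSet (W M) :=
  measurableSet_setOf.2 (Measurable.forall fun z => measurable_const.imp
    ((Measurable.of_discrete (f := fun s : St => s = o)).comp (measurable_pi_apply (e z))))

lemma eq_o {x : V → St} {z : ℤ} (h2 : ¬ Kl x z) (h3 : ¬ Dr x z) : x (e z) = o := by
  simp only [Kl, Dr, Bool.not_eq_true] at h2 h3
  exact Prod.ext h2 h3

lemma lower (μ : Measure (V → St)) [IsProbabilityMeasure μ] (M m : ℕ) :
    h m (2 * M + 1) ≤ (it (m + 1) μ).real (W M) := by
  rw [Measure.real, ← ENNReal.ofReal_le_iff_le_toReal (measure_ne_top _ _)]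
  refine (claim μ m (-M) (2 * M + 1)).trans ?_
  rw [it_succ _ _ (mW M), ← lintegral_indicator_one (mDD _ _)]
  refine lintegral_mono fun x => ?_
  by_cases hD : x ∈ D (-M) (2 * M + 1)
  · have : step x ⁻¹' W M = Set.univ := by
      refine Set.eq_univ_of_forall fun c z hz => ?_
      rw [abs_le] at hz
      have hp : ¬ pres x z := hD z (by omega) (by push_cast; omega)
      refine eq_o ?_ ?_
      · rwa [Kl_step]
      · rw [Dr_step]; exact fun h => hp h.1
    rw [this, Set.indicator_of_mem hD]; simp
  · rw [Set.indicator_of_notMem hD]; exact zero_le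

lemma W_unif (M : ℕ) {ε : ℝ} (hε : 0 < ε) : ∃ t₀ : ℕ, ∀ t, t₀ ≤ t → ∀ μ : Measure (V → St),
    IsProbabilityMeasure μ → (it t μ).real (W M)ᶜ ≤ ε := by
  obtain ⟨m, hm⟩ := eventually_atTop.1 ((h_tendsto (2 * M + 1)).eventually
    (lt_mem_nhds (show 1 - ε < 1 by linarith)))
  refine ⟨m + 1, fun t ht μ _ => ?_⟩
  obtain ⟨s, rfl⟩ : ∃ s, t = s + 1 := ⟨t - 1, by omega⟩
  rw [probReal_compl_eq_one_sub (mW M)]
  linarith [lower μ M s, hm s (by omega)]

lemma m_cyl (S : Finset V) (a : V → St) : MeasurableSet (cyl S a) :=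
  measurableSet_setOf.2 (Measurable.forall fun k => measurable_const.imp
    ((Measurable.of_discrete (f := fun s : St => s = a k)).comp (measurable_pi_apply k)))

def oo : V → St := fun _ => o

lemma W_sub (S : Finset V) : ∃ M, W M ⊆ cyl S oo := by
  refine ⟨S.sup fun k => (k 0).natAbs, fun x hx k hk => ?_⟩
  rw [e_surj k]
  refine hx _ ?_
  have : (k 0).natAbs ≤ S.sup fun k => (k 0).natAbs := Finset.le_sup (f := fun k : V => (k 0).natAbs) hk
  rw [← Int.natCast_natAbs]; exact_mod_cast this

lemma close {μ : Measure (V → St)} [IsProbabilityMeasure μ] {T : Set (V → St)} (hT : MeasurableSet T)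
    {M : ℕ} (h : ∀ x ∈ W M, x ∈ T ↔ oo ∈ T) :
    |μ.real T - (Measure.dirac oo).real T| ≤ μ.real (W M)ᶜ := by
  by_cases ha : oo ∈ T
  · rw [Measure.real, Measure.real, Measure.dirac_apply_of_mem ha, ENNReal.toReal_one, abs_sub_comm,
      ← Measure.real, abs_of_nonneg (sub_nonneg.2 measureReal_le_one), ← probReal_compl_eq_one_sub hT]
    exact measureReal_mono fun x hx hw => hx ((h x hw).2 ha)
  · rw [Measure.real, Measure.real, Measure.dirac_apply' _ hT, Set.indicator_of_notMem ha,
      ENNReal.toReal_zero, sub_zero, ← Measure.real, abs_of_nonneg measureReal_nonneg]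
    exact measureReal_mono fun x hx hw => ha ((h x hw).1 hx)

lemma unif : IsUnifErgodic NN f (Measure.dirac oo) := by
  intro S a ε hε
  obtain ⟨M, hM⟩ := W_sub S
  obtain ⟨t₀, h⟩ := W_unif M hε
  refine ⟨t₀, fun t ht μ hμ => (close (m_cyl S a) fun x hx => ?_).trans (h t ht μ hμ)⟩
  exact forall₂_congr fun i hi => by rw [hM hx i hi]

lemma weak (μ : Measure (V → St)) [IsProbabilityMeasure μ] (G : BoundedContinuousFunction (V → St) ℝ) :
    Tendsto (fun t => ∫ x, G x ∂(it t μ)) atTop (𝓝 (∫ x, G x ∂(Measure.dirac oo))) := by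
  refine ProbabilityMeasure.tendsto_iff_forall_integral_tendsto.1
    (tendsto_of_forall_isOpen_le_liminf_nat' (μ := ⟨Measure.dirac oo, inferInstance⟩)
      (μs := fun t => ⟨it t μ, inferInstance⟩) fun U hU => ?_) G
  show Measure.dirac oo U ≤ liminf (fun t => it t μ U) atTop
  by_cases ho : oo ∈ U
  · obtain ⟨S, u, h1, h2⟩ := isOpen_pi_iff.1 hU oo ho
    obtain ⟨M, hM⟩ := W_sub S
    have h3 : W M ⊆ U := fun x hx => h2 fun i hi => by rw [hM hx i hi]; exact (h1 i hi).2
    have h4 : Tendsto (fun t => (it t μ).real U) atTop (𝓝 1) := by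
      refine Metric.tendsto_atTop.2 fun ε hε => ?_
      obtain ⟨t₀, h⟩ := W_unif M (half_pos hε)
      refine ⟨t₀, fun t ht => ?_⟩
      have h5 := close (μ := it t μ) hU.measurableSet (M := M) fun x hx => iff_of_true (h3 hx) ho
      rw [measureReal_def (Measure.dirac oo), Measure.dirac_apply_of_mem ho, ENNReal.toReal_one] at h5
      exact (h5.trans (h t ht μ inferInstance)).trans_lt (half_lt_self hε)
    have h5 := ENNReal.tendsto_ofReal h4
    simp only [ofReal_measureReal (measure_ne_top _ _), ENNReal.ofReal_one] at h5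
    rw [h5.liminf_eq, Measure.dirac_apply_of_mem ho]
  · rw [Measure.dirac_apply' _ hU.measurableSet, Set.indicator_of_notMem ho]
    exact zero_le

lemma step_oo (c : V → Bool) : step oo c = oo := by
  funext w; simp [step, oo, o, g]

lemma erg : IsErgodic NN f (Measure.dirac oo) := by
  refine ⟨inferInstance, ?_, fun ν _ hν => ?_, fun μ _ G => weak μ G⟩
  · rw [Measure.dirac_bind meas_κ, κ_apply, show step oo = fun _ => oo from funext step_oo]
    simp
  · refine ext_of_forall_integral_eq_of_IsFiniteMeasure fun G => ?_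
    have h1 := weak ν G
    have h2 : ∀ t, it t ν = ν := fun t => Function.iterate_fixed hν t
    simp only [h2] at h1
    exact tendsto_nhds_unique tendsto_const_nhds h1

def shift (k : V) (x : V → St) : V → St := fun i => x (i + k)

lemma meas_shift (k : V) : Measurable (shift k) := by unfold shift; fun_prop

lemma kernel_shift (k : V) (x : V → St) : kernel NN f (shift k x) = (kernel NN f x).map (shift k) := by
  unfold kernel
  refine Eq.trans ?_ (Measure.map_infinitePi_infinitePi_of_inj
    (P := fun i => (f (fun n : NN => x (i + n)) : Measure St)) (add_left_injective k)).symm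
  simp only [shift, add_right_comm _ _ k]

def full : V → St := fun _ => (true, false)

lemma it_shift (k : V) (t : ℕ) :
    (it t (Measure.dirac full)).map (shift k) = it t (Measure.dirac full) := by
  induction t with
  | zero => exact Measure.map_dirac' (meas_shift k) _
  | succ t ih =>
    refine Measure.ext fun s hs => ?_
    rw [Measure.map_apply (meas_shift k) hs, it_succ', Measure.bind_apply hs meas_κ.aemeasurable,
      Measure.bind_apply (meas_shift k hs) meas_κ.aemeasurable]
    conv_rhs => rw [← ih]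
    rw [lintegral_map (f := fun a => kernel NN f a s) ((Measure.measurable_coe hs).comp meas_κ)
      (meas_shift k)]
    simp only [kernel_shift, Measure.map_apply (meas_shift k) hs]

def Thick (t : ℕ) (x : V → St) : Prop := ∀ z : ℤ, ∃ w : ℤ, (z ≤ w ∧ w ≤ z + t) ∧ Kl x w

lemma mDense (t : ℕ) : Measurable (Thick t) :=
  Measurable.forall fun _ => Measurable.exists fun w => measurable_const.and (mK w)

lemma ae_dense (t : ℕ) : ∀ᵐ x ∂(it t (Measure.dirac full)), Thick t x := by
  induction t with
  | zero =>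
    show ∀ᵐ x ∂(Measure.dirac full), Thick 0 x
    rw [ae_dirac_iff (measurableSet_setOf.2 (mDense 0))]
    exact fun z => ⟨z, by simp, rfl⟩
  | succ t ih =>
    refine it_ae (measurableSet_setOf.2 (mDense _)) (fun x c hx z => ?_) ih
    obtain ⟨w, h1, h2⟩ := hx (z + 2)
    rcases Kl_move x c h2 with h | h
    · exact ⟨_, by push_cast; omega, h⟩
    · exact ⟨_, by push_cast; omega, h⟩

lemma slow (t : ℕ) : 1 / ((t : ℝ) + 1) ≤
    |(it t (Measure.dirac full)).real (cyl {e 0} oo) - (Measure.dirac oo).real (cyl {e 0} oo)| := by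
  set μ := it t (Measure.dirac full) with hμ
  have h0 : (Measure.dirac oo).real (cyl {e 0} oo) = 1 := by
    rw [Measure.real, Measure.dirac_apply_of_mem (s := cyl {e 0} oo) (fun _ _ => rfl)]; rfl
  rw [h0, abs_sub_comm, abs_of_nonneg (sub_nonneg.2 measureReal_le_one),
    ← probReal_compl_eq_one_sub (m_cyl _ _), div_le_iff₀ (by positivity)]
  have h1 : ∀ i : ℕ, μ.real (shift (e i) ⁻¹' (cyl {e 0} oo)ᶜ) = μ.real (cyl {e 0} oo)ᶜ := by
    intro i
    conv_rhs => rw [hμ, ← it_shift (e i) t]
    rw [map_measureReal_apply (meas_shift _) (m_cyl _ _).compl]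
  calc (1 : ℝ) = μ.real Set.univ := by simp
    _ ≤ μ.real (⋃ i ∈ Finset.range (t + 1), shift (e i) ⁻¹' (cyl {e 0} oo)ᶜ) := by
      refine ENNReal.toReal_mono (measure_ne_top _ _) (measure_mono_ae ?_)
      filter_upwards [ae_dense t] with x hx _
      obtain ⟨w, h1, h2⟩ := hx 0
      refine Set.mem_iUnion₂.2 ⟨w.toNat, by simp; omega, fun h => ?_⟩
      have h3 := h (e 0) (Finset.mem_singleton_self _)
      rw [shift, e_add, zero_add, Int.toNat_of_nonneg h1.1] at h3
      rw [Kl, h3] at h2
      simp [oo, o] at h2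
    _ ≤ ∑ i ∈ Finset.range (t + 1), μ.real (shift (e i) ⁻¹' (cyl {e 0} oo)ᶜ) :=
      measureReal_biUnion_finset_le _ _
    _ = _ := by simp only [h1]; simp [mul_comm]

/-- There is a one-dimensional PCA on four symbols that is ergodic and uniformly ergodic, but not
exponentially ergodic, not even in the weak sense: for one cylinder and one initial measure the
distance to the stationary value is at least `1 / (t + 1)` at every time `t`. -/
theorem result : ∃ (N : Finset (Fin 1 → ℤ)) (f : (N → Bool × Bool) → ProbabilityMeasure (Bool × Bool))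
    (π : Measure (Cfg 1 (Bool × Bool))),
    IsErgodic N f π ∧ IsUnifErgodic N f π ∧ ¬ ExpConv N f π ∧ ¬ WeakExpConv N f π ∧
      ∃ (D : Finset (Fin 1 → ℤ)) (w : Cfg 1 (Bool × Bool)) (μ : Measure (Cfg 1 (Bool × Bool))),
        IsProbabilityMeasure μ ∧ ∀ t : ℕ,
          1 / ((t : ℝ) + 1) ≤ |(evolve N f t μ).real (cyl D w) - π.real (cyl D w)| := by
  have hw : ¬ WeakExpConv NN f (Measure.dirac oo) := by
    intro H
    obtain ⟨K, γ, h0, h1, h2⟩ := H {e 0} oo (Measure.dirac full) inferInstance
    have h3 : Tendsto (fun t : ℕ => K * ((t : ℝ) * γ ^ t + γ ^ t)) atTop (𝓝 (K * (0 + 0))) :=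
      ((tendsto_self_mul_const_pow_of_lt_one h0 h1).add
        (tendsto_pow_atTop_nhds_zero_of_lt_one h0 h1)).const_mul K
    obtain ⟨t, ht⟩ := (h3.eventually (gt_mem_nhds (show K * (0 + 0) < 1 by simp))).exists
    have h4 := (slow t).trans (h2 t)
    rw [div_le_iff₀ (by positivity)] at h4
    linarith
  refine ⟨NN, f, Measure.dirac oo, erg, unif, fun H => hw fun D w μ hμ => ?_, hw,
    {e 0}, oo, Measure.dirac full, inferInstance, slow⟩
  obtain ⟨K, γ, h0, h1, h2⟩ := H D w
  exact ⟨K, γ, h0, h1, h2 μ hμ⟩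

end Pool.Agent.Results.MP_37af32_pr.Slow
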